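import Pool.Agent.H.MP_2a1065_lc.Proof

/-!
# Exponentially long best-response paths in budgeted sharing games

We show that there are budgeted sharing games with `n + m` arbitrarily large that admit a
best-response path of length at least `2 ^ ((n + m) / 14)`.
-/

namespace Pool.Agent.Results.MP_2a1065_lc.ExpPath

open Finset Pool.Agent.H.MP_2a1065_lc

/-- The answer to Q1: with `c = 1/14`, there are budgeted sharing games with `n + m` arbitrarily
large that admit a best-response path of length at least `2 ^ (c (n + m))`. -/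
theorem result : ∃ c : ℝ, 0 < c ∧ ∀ K : ℕ, ∃ (U H : Type) (_ : Fintype U) (_ : Fintype H)
    (_ : DecidableEq U) (_ : DecidableEq H) (G : Game U H),
    K ≤ Fintype.card U + Fintype.card H ∧
    ∃ (T : ℕ) (p : ℕ → U → Finset H), G.IsPath T p ∧
      (2 : ℝ) ^ (c * ((Fintype.card U : ℝ) + (Fintype.card H : ℝ))) ≤ (T : ℝ) := by
  refine ⟨1 / 14, by norm_num, fun K => ?_⟩
  set L := K + 1 with hL
  have : Nonempty (Ed L) := ⟨(⟨0, by omega⟩, 0)⟩
  refine ⟨Nd L, Nd L ⊕ Ed L, inferInstance, inferInstance, inferInstance, inferInstance,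
    (net L).game, ?_, ?_⟩
  · simp [hL]
    omega
  · obtain ⟨s, n, hn, hs⟩ := long_run L (by omega)
    obtain ⟨p, hp0, hp⟩ := hs.toFun
    refine ⟨n, fun t => (net L).prof (p t), ⟨fun t _ => (net L).isState_prof _, fun t ht => ?_⟩, ?_⟩
    · obtain ⟨v, hv, h | h⟩ := hp t ht
      · have := (net L).move_on (p t) v h.1 h.2
        rw [← hv] at this
        exact this
      · have := (net L).move_off (p t) v h.1 h.2
        rw [← hv] at this
        exact this
    · have h1 : (2 : ℝ) ^ (1 / 14 * ((Fintype.card (Nd L) : ℝ) + (Fintype.card (Nd L ⊕ Ed L) : ℝ)))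
          ≤ (2 : ℝ) ^ (L : ℝ) := by
        apply Real.rpow_le_rpow_of_exponent_le (by norm_num)
        have h2 : (1 : ℝ) ≤ L := by
          rw [hL]
          push_cast
          linarith [Nat.cast_nonneg (α := ℝ) K]
        simp only [Fintype.card_sum, Fintype.card_prod, Fintype.card_fin]
        push_cast
        linarith
      refine h1.trans ?_
      rw [Real.rpow_natCast]
      exact_mod_cast hn

end Pool.Agent.Results.MP_2a1065_lc.ExpPath
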